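import Pool.Agent.H586.GLU.Stm

/-!
# Project GLU (helper586): S_ASY
-/

set_option autoImplicit false

open MeasureTheory Matrix Finset Filter Topology

namespace Pool.Agent.H189.GLU

open Pool.Agent.H586.GLU

/-- polynomials times negative powers or stretched exponentials of `b` tend to zero -/
theorem asy : S_ASY := by
  intro k
  refine ⟨4 * (k + 2), fun C b hb => ?_⟩
  have hL : Tendsto (fun L : ℕ => (L : ℝ)) atTop atTop := tendsto_natCast_atTop_atTop
  have hev : ∀ᶠ L : ℕ in atTop, (1 : ℝ) ≤ L ∧ (L : ℝ) ^ (4 * (k + 2)) ≤ b L := by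
    filter_upwards [hb, hL.eventually_ge_atTop 1] with L h1 h2 using ⟨h2, h1⟩
  have hbtop : Tendsto b atTop atTop := by
    refine tendsto_atTop_mono' _ ?_ hL
    filter_upwards [hev] with L h
    calc (L : ℝ) = (L : ℝ) ^ 1 := (pow_one _).symm
      _ ≤ (L : ℝ) ^ (4 * (k + 2)) := pow_le_pow_right₀ h.1 (by omega)
      _ ≤ b L := h.2
  constructor
  · have h0 : Tendsto (fun L : ℕ => |C| * ((L : ℝ))⁻¹) atTop (𝓝 0) := by
      simpa using (tendsto_inv_atTop_zero.comp hL).const_mul |C|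
    refine squeeze_zero_norm' ?_ h0
    filter_upwards [hev] with L h
    have hLp : (0 : ℝ) < L := by linarith [h.1]
    have hbp : 1 ≤ b L := (one_le_pow₀ h.1).trans h.2
    rw [Real.norm_eq_abs, abs_mul, abs_mul, abs_of_nonneg (pow_nonneg hLp.le k),
      abs_of_nonneg (Real.rpow_nonneg (by linarith) _), mul_assoc]
    refine mul_le_mul_of_nonneg_left ?_ (abs_nonneg C)
    have h1 : b L ^ (-(9 / 20) : ℝ) ≤ ((L : ℝ) ^ (4 * (k + 2))) ^ (-(9 / 20) : ℝ) :=
      Real.rpow_le_rpow_of_nonpos (by positivity) h.2 (by norm_num)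
    have h2 : ((L : ℝ) ^ (4 * (k + 2))) ^ (-(9 / 20) : ℝ) =
        (L : ℝ) ^ (((4 * (k + 2) : ℕ) : ℝ) * (-(9 / 20))) := by
      rw [← Real.rpow_natCast, ← Real.rpow_mul hLp.le]
    calc (L : ℝ) ^ k * b L ^ (-(9 / 20) : ℝ)
        ≤ (L : ℝ) ^ k * (L : ℝ) ^ (((4 * (k + 2) : ℕ) : ℝ) * (-(9 / 20))) := by
          rw [← h2]
          exact mul_le_mul_of_nonneg_left h1 (pow_nonneg hLp.le k)
      _ = (L : ℝ) ^ ((k : ℝ) + ((4 * (k + 2) : ℕ) : ℝ) * (-(9 / 20))) := by
          rw [Real.rpow_add hLp, Real.rpow_natCast]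
      _ ≤ (L : ℝ) ^ (-1 : ℝ) := by
          refine Real.rpow_le_rpow_of_exponent_le h.1 ?_
          push_cast
          have : (0 : ℝ) ≤ k := Nat.cast_nonneg k
          linarith
      _ = (L : ℝ)⁻¹ := Real.rpow_neg_one _
  · have ht : Tendsto (fun L => b L ^ (1 / 200 : ℝ)) atTop atTop :=
      (tendsto_rpow_atTop (by norm_num)).comp hbtop
    have h0 : Tendsto (fun L => 3 * |C| * ((b L ^ (1 / 200 : ℝ)) ^ 600 *
        Real.exp (-(b L ^ (1 / 200 : ℝ))))) atTop (𝓝 0) := by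
      simpa using ((Real.tendsto_pow_mul_exp_neg_atTop_nhds_zero 600).comp ht).const_mul
        (3 * |C|)
    refine squeeze_zero_norm' ?_ h0
    filter_upwards [hev] with L h
    have hLp : (0 : ℝ) < L := by linarith [h.1]
    have hbp : 1 ≤ b L := (one_le_pow₀ h.1).trans h.2
    have hb3 : (b L ^ (1 / 200 : ℝ)) ^ 600 = b L ^ 3 := by
      rw [← Real.rpow_natCast (b L ^ (1 / 200 : ℝ)) 600, ← Real.rpow_mul (by linarith),
        ← Real.rpow_natCast (b L) 3]
      norm_num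
    have hk : (L : ℝ) ^ k ≤ b L := (pow_le_pow_right₀ h.1 (by omega)).trans h.2
    have hsum : 1 + b L + b L ^ 2 ≤ 3 * b L ^ 2 := by nlinarith
    rw [hb3, Real.norm_eq_abs, abs_mul, abs_mul, abs_of_nonneg (pow_nonneg hLp.le k),
      abs_of_nonneg (mul_nonneg (by positivity) (Real.exp_pos _).le)]
    have he := (Real.exp_pos (-(b L ^ (1 / 200 : ℝ)))).le
    calc |C| * (L : ℝ) ^ k * ((1 + b L + b L ^ 2) * Real.exp (-(b L ^ (1 / 200 : ℝ))))
        ≤ |C| * b L * ((3 * b L ^ 2) * Real.exp (-(b L ^ (1 / 200 : ℝ)))) := by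
          refine mul_le_mul (mul_le_mul_of_nonneg_left hk (abs_nonneg C))
            (mul_le_mul_of_nonneg_right hsum he) (mul_nonneg (by positivity) he)
            (mul_nonneg (abs_nonneg C) (by linarith))
      _ = 3 * |C| * (b L ^ 3 * Real.exp (-(b L ^ (1 / 200 : ℝ)))) := by ring

end Pool.Agent.H189.GLU
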